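import Mathlib

set_option autoImplicit false

namespace Pool.Agent.H7697ea

/-- The rising factorial `(z)_k = z (z + 1) ... (z + k - 1)`. -/
noncomputable def poch (z : ℂ) (k : ℕ) : ℂ := ∏ m ∈ Finset.range k, (z + (m : ℂ))

/-- The polynomial `P_n^r` (as a function of `z`), for the coefficient sequence `f`:
the sum over all `r`-tuples `k` of non-negative integers with sum `n`. -/
noncomputable def Pnr (n r : ℕ) (f : ℕ → ℝ) (z : ℂ) : ℂ :=
  ∑ k ∈ Finset.Nat.antidiagonalTuple r n,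
    ((n.factorial : ℂ) / ∏ i : Fin r, ((k i).factorial : ℂ)) * (∏ i : Fin r, ((f (k i) : ℝ) : ℂ)) *
      Matrix.det (Matrix.of fun i j : Fin r => poch (z + ((j : ℕ) : ℂ) - ((i : ℕ) : ℂ)) (k i))

/-- The assertion of Q1 for the pair `(n, r)`. -/
def Assertion (n r : ℕ) : Prop :=
  ∀ f : ℕ → ℝ, f n ≠ 0 →
    (∀ z : ℂ, ∑ k ∈ Finset.range (n + 1), ((f k : ℝ) : ℂ) * z ^ k = 0 → z.im = 0 ∧ z.re < 0) →
    (∀ z : ℂ, Pnr n r f z = 0) ∨ (∀ z : ℂ, Pnr n r f z = 0 → z.im = 0 ∧ z.re < 0)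

end Pool.Agent.H7697ea
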