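import Pool.Agent.H7697ea.Proofs

set_option autoImplicit false

namespace Pool.Agent.H7697ea

theorem en0 (z : ℂ) : en z 0 = 64000000 := by simp [en, fc0, poch]
theorem en1 (z : ℂ) : en z 1 = 211200000 * z := by simp [en, fc1, poch]
theorem en2 (z : ℂ) : en z 2 = 126000000 * (z * (z + 1)) := by
  simp only [en, fc2, poch, Finset.prod_range_succ, Finset.prod_range_zero]
  norm_num [Nat.factorial]
theorem en3 (z : ℂ) : en z 3 = 128960000 / 6 * (z * (z + 1) * (z + 2)) := by
  simp only [en, fc3, poch, Finset.prod_range_succ, Finset.prod_range_zero]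
  norm_num [Nat.factorial]
theorem en4 (z : ℂ) : en z 4 = 26886000 / 24 * (z * (z + 1) * (z + 2) * (z + 3)) := by
  simp only [en, fc4, poch, Finset.prod_range_succ, Finset.prod_range_zero]
  norm_num [Nat.factorial]
theorem en5 (z : ℂ) : en z 5 = 2898120 / 120 * (z * (z + 1) * (z + 2) * (z + 3) * (z + 4)) := by
  simp only [en, fc5, poch, Finset.prod_range_succ, Finset.prod_range_zero]
  norm_num [Nat.factorial]
theorem en6 (z : ℂ) : en z 6
    = 178361 / 720 * (z * (z + 1) * (z + 2) * (z + 3) * (z + 4) * (z + 5)) := by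
  simp only [en, fc6, poch, Finset.prod_range_succ, Finset.prod_range_zero]
  norm_num [Nat.factorial]
theorem en7 (z : ℂ) : en z 7
    = 6363 / 5040 * (z * (z + 1) * (z + 2) * (z + 3) * (z + 4) * (z + 5) * (z + 6)) := by
  simp only [en, fc7, poch, Finset.prod_range_succ, Finset.prod_range_zero]
  norm_num [Nat.factorial]
theorem en8 (z : ℂ) : en z 8
    = 123 / 40320 * (z * (z + 1) * (z + 2) * (z + 3) * (z + 4) * (z + 5) * (z + 6) * (z + 7)) := by
  simp only [en, fc8, poch, Finset.prod_range_succ, Finset.prod_range_zero]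
  norm_num [Nat.factorial]
theorem en9 (z : ℂ) : en z 9
    = 1 / 362880 *
      (z * (z + 1) * (z + 2) * (z + 3) * (z + 4) * (z + 5) * (z + 6) * (z + 7) * (z + 8)) := by
  simp only [en, fc9, poch, Finset.prod_range_succ, Finset.prod_range_zero]
  norm_num [Nat.factorial]

set_option maxRecDepth 100000 in
theorem P_eval (z : ℂ) : Pnr 9 3 fc z = 619315200000000000 *
    ((z + 2) * (180891835219 * z ^ 2 + 560172385063 * z + 436273805292)) := by
  rw [P_eq_sum]
  simp only [Finset.sum_range_succ, Finset.sum_range_zero, Nat.reduceSub, dt,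
    en0, en1, en2, en3, en4, en5, en6, en7, en8, en9, Nat.sub_zero, zero_add]
  ring

end Pool.Agent.H7697ea
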