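import Pool.Agent.H7697ea.Defs

set_option autoImplicit false

namespace Pool.Agent.H7697ea

/-- coefficients of `(z + 1)^3 (z + 20)^6` -/
noncomputable def fc (k : ℕ) : ℝ :=
  ([64000000, 211200000, 252000000, 128960000, 26886000, 2898120, 178361, 6363, 123, 1] :
    List ℝ).getD k 0

theorem fc0 : fc 0 = 64000000 := rfl
theorem fc1 : fc 1 = 211200000 := rfl
theorem fc2 : fc 2 = 252000000 := rfl
theorem fc3 : fc 3 = 128960000 := rfl
theorem fc4 : fc 4 = 26886000 := rfl
theorem fc5 : fc 5 = 2898120 := rfl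
theorem fc6 : fc 6 = 178361 := rfl
theorem fc7 : fc 7 = 6363 := rfl
theorem fc8 : fc 8 = 123 := rfl
theorem fc9 : fc 9 = 1 := rfl

theorem fc_poly (z : ℂ) : ∑ k ∈ Finset.range (9 + 1), ((fc k : ℝ) : ℂ) * z ^ k
    = (z + 1) ^ 3 * (z + 20) ^ 6 := by
  simp only [Finset.sum_range_succ, Finset.sum_range_zero, fc0, fc1, fc2, fc3, fc4, fc5, fc6, fc7, fc8,
    fc9]
  push_cast
  ring

theorem fc_roots (z : ℂ) (h : ∑ k ∈ Finset.range (9 + 1), ((fc k : ℝ) : ℂ) * z ^ k = 0) :
    z.im = 0 ∧ z.re < 0 := by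
  rw [fc_poly] at h
  rcases mul_eq_zero.mp h with h | h
  · have h2 := pow_eq_zero_iff (by norm_num) |>.mp h
    have h3 : z = -1 := by linear_combination h2
    rw [h3]; simp
  · have h2 := pow_eq_zero_iff (by norm_num) |>.mp h
    have h3 : z = -20 := by linear_combination h2
    rw [h3]; simp

theorem sum_tuple (F : (Fin 3 → ℕ) → ℂ) (n : ℕ) :
    ∑ k ∈ Finset.Nat.antidiagonalTuple 3 n, F k
      = ∑ a ∈ Finset.range (n + 1), ∑ b ∈ Finset.range (n + 1 - a), F ![a, b, n - a - b] := by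
  rw [Finset.sum_sigma']
  refine Finset.sum_nbij' (fun k => ⟨k 0, k 1⟩) (fun p => ![p.1, p.2, n - p.1 - p.2]) ?_ ?_ ?_ ?_ ?_
  · intro k hk
    rw [Finset.Nat.mem_antidiagonalTuple, Fin.sum_univ_three] at hk
    simp only [Finset.mem_sigma, Finset.mem_range]
    omega
  · intro p hp
    simp only [Finset.mem_sigma, Finset.mem_range] at hp
    rw [Finset.Nat.mem_antidiagonalTuple, Fin.sum_univ_three]
    simp
    omega
  · intro k hk
    rw [Finset.Nat.mem_antidiagonalTuple, Fin.sum_univ_three] at hk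
    ext i
    fin_cases i
    · rfl
    · rfl
    · simp
      omega
  · intro p hp
    rfl
  · intro k hk
    rw [Finset.Nat.mem_antidiagonalTuple, Fin.sum_univ_three] at hk
    congr 1
    ext i
    fin_cases i
    · rfl
    · rfl
    · simp
      omega

/-- normalised entries -/
noncomputable def en (z : ℂ) (k : ℕ) : ℂ := ((fc k : ℝ) : ℂ) / (k.factorial : ℂ) * poch z k

/-- determinant of a row-scaled Toeplitz matrix -/
noncomputable def dt (z : ℂ) (a b c : ℕ) : ℂ :=
  en z a * (en z b * en z c - en (z + 1) b * en (z - 1) c)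
    - en (z + 1) a * (en (z - 1) b * en z c - en (z + 1) b * en (z - 2) c)
    + en (z + 2) a * (en (z - 1) b * en (z - 1) c - en z b * en (z - 2) c)

theorem term_eq (z : ℂ) (a b c : ℕ) :
    (((9:ℕ).factorial : ℂ) / ∏ i : Fin 3, (((![a, b, c] : Fin 3 → ℕ) i).factorial : ℂ)) *
      (∏ i : Fin 3, ((fc ((![a, b, c] : Fin 3 → ℕ) i) : ℝ) : ℂ)) *
      Matrix.det (Matrix.of fun i j : Fin 3 =>
        poch (z + ((j : ℕ) : ℂ) - ((i : ℕ) : ℂ)) ((![a, b, c] : Fin 3 → ℕ) i))
      = 362880 * dt z a b c := by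
  have e1 : z + 1 - 1 = z := by ring
  have e2 : z + 1 - 2 = z - 1 := by ring
  have e3 : z + 2 - 1 = z + 1 := by ring
  have e4 : z + 2 - 2 = z := by ring
  rw [Matrix.det_fin_three]
  simp only [Matrix.of_apply, Fin.prod_univ_three, Matrix.cons_val_zero, Matrix.cons_val_one,
    Matrix.cons_val]
  simp only [Fin.val_zero, Fin.val_one, Fin.val_two, Nat.cast_zero, Nat.cast_one, Nat.cast_ofNat,
    add_zero, sub_zero, e1, e2, e3, e4]
  unfold dt en
  have ha : ((a.factorial : ℕ) : ℂ) ≠ 0 := by exact_mod_cast a.factorial_ne_zero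
  have hb : ((b.factorial : ℕ) : ℂ) ≠ 0 := by exact_mod_cast b.factorial_ne_zero
  have hc : ((c.factorial : ℕ) : ℂ) ≠ 0 := by exact_mod_cast c.factorial_ne_zero
  have h9 : (((9:ℕ).factorial : ℕ) : ℂ) = 362880 := by
    norm_num [Nat.factorial]
  rw [h9]
  field_simp
  ring

theorem P_eq_sum (z : ℂ) : Pnr 9 3 fc z
    = 362880 * ∑ a ∈ Finset.range 10, ∑ b ∈ Finset.range (10 - a), dt z a b (9 - a - b) := by
  unfold Pnr
  rw [sum_tuple]
  rw [Finset.mul_sum]
  apply Finset.sum_congr rfl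
  intro a _
  rw [Finset.mul_sum]
  apply Finset.sum_congr rfl
  intro b _
  exact term_eq z a b _

end Pool.Agent.H7697ea
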